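import Pool.Agent.Lib.MP_0256c3_gt.Main

/-!
# Uniform Eberlein compacta that are not superadic, of every compactness number

For every `c` with `3 ≤ c ≤ ∞` there is a uniform Eberlein compactum `K` of compactness number
exactly `c` such that every space that maps continuously onto `K` has compactness number at
least `c`. In particular `K` is not a continuous image of a supercompact Hausdorff space.
-/

namespace Pool.Agent.Results.MP_0256c3_gt.CompactnessNumber

open Pool.Agent.Lib.MP_0256c3_gt

universe u

theorem result (c : ℕ∞) (hc : 3 ≤ c) : ∃ (K : Type) (_ : TopologicalSpace K), Nonempty K ∧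
    CompactSpace K ∧ T2Space K ∧ IsUniformEberlein K ∧ ¬ IsSuperadic.{u} K ∧ cmpn K = c ∧
      ∀ (S : Type u) [TopologicalSpace S] (f : S → K), Continuous f → Function.Surjective f →
        c ≤ cmpn S :=
  main c hc

end Pool.Agent.Results.MP_0256c3_gt.CompactnessNumber
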